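import Mathlib
import Pool.Agent.SWT45.Opc
import Pool.Agent.SWT80.Ops4

/-!
# Opening another rim edge: the rim graphs

The second opened edge of a rim graph may be replaced by any edge of the rim.
-/

set_option autoImplicit false

namespace Pool.Agent.SWT46

open Equiv Pool.Agent.SWT49 Pool.Agent.SWT80 Pool.Agent.SWT84 Pool.Agent.SWT89
  Pool.Agent.SWT65 Pool.Agent.SWT45 Pool.Agent.SWT84.Cy

variable {V M : Type} {n : ℕ}

/-- If all edges from the cycle `S` lead to legs (or are opened) then every half-edge is at the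
cycle. -/
theorem on_all {G : Gr V n} {D S : Set V} (hc : CD G D) (hS : Cy G S) (hne : S.Nonempty)
    (hl : ∀ v, v ∉ S → v ∉ D → G.r v ∈ S → G.r (G.e v) = G.e v) (w : V) :
    On G S w ∨ (G.r w = w ∧ On G S (G.e w)) := by
  have h1 : {w | On G S w ∨ (G.r w = w ∧ On G S (G.e w))} = Set.univ := by
    refine hc _ ⟨?_, ?_⟩ ?_
    · rintro w (hw | ⟨h1, h2⟩) hwD
      · by_cases hwS : w ∈ S
        · exact Or.inl (Or.inl (hS.e w hwS))
        · refine Or.inr ⟨hl w hwS hwD (hw.resolve_left hwS), ?_⟩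
          rw [G.e2]
          exact hw
      · exact Or.inl h2
    · rintro w (hw | ⟨h1, h2⟩)
      · exact Or.inl (hS.on_r.2 hw)
      · rw [h1]
        exact Or.inr ⟨h1, h2⟩
    · obtain ⟨w, hw⟩ := hne
      exact ⟨w, Or.inl (Or.inl hw)⟩
  have h2 : w ∈ {w | On G S w ∨ (G.r w = w ∧ On G S (G.e w))} := by
    rw [h1]
    trivial
  exact h2

/-- A cycle all of whose edges lead to legs has no smaller cycle. -/
theorem sub_eq {G : Gr V n} {D S R : Set V} (hc : CD G D) (hR : Cy G R)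
    (hl : ∀ v, v ∉ R → v ∉ D → G.r v ∈ R → G.r (G.e v) = G.e v) (hS : Cy G S) (hSR : S ⊆ R)
    (hne : S.Nonempty) : S = R := by
  have hl' : ∀ v, v ∉ S → v ∉ D → G.r v ∈ S → G.r (G.e v) = G.e v := by
    intro v hv hvD hr
    refine hl v ?_ hvD (hSR hr)
    intro hvR
    rcases hR.two v hvR with ⟨_, h2⟩ | ⟨h2, _⟩
    · exact h2 (hSR (hS.rr_of hv hr))
    · exact h2 (hSR hr)
  refine Set.Subset.antisymm hSR fun v hv => ?_
  rcases on_all hc hS hne hl' v with h1 | ⟨h1, _⟩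
  · by_contra hvS
    have h2 := h1.resolve_left hvS
    rcases hR.two v hv with ⟨_, h3⟩ | ⟨h3, _⟩
    · exact h3 (hSR (hS.rr_of hvS h2))
    · exact h3 (hSR h2)
  · exact absurd h1 (hR.ne_leg hv)

theorem on_vt {G : Gr V n} {R : Set V} (hR : Cy G R) {x y : V} (h : G.vt x y) (hx : On G R x) :
    On G R y := by
  rcases h with h1 | h1 | h1
  · rw [h1]
    exact hx
  · rw [h1]
    exact hR.on_r.2 hx
  · rw [h1]
    exact hR.on_r.2 (hR.on_r.2 hx)

theorem mem_up {R : Set V} {v : V} :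
    (Sum.inl (Sum.inl v) : (V ⊕ Bool) ⊕ Bool) ∈ Sum.inl '' (Sum.inl '' R) ↔ v ∈ R := by
  rw [Sum.inl_injective.mem_set_image, Sum.inl_injective.mem_set_image]

theorem D2_e (G : Gr V n) (h k : V) : D2 G h (G.e k) = D2 G h k := by
  unfold D2
  rw [G.e2, Set.pair_comm (G.e k) k]

theorem one_e [Finite V] {G : Gr V n} {h k : V} (h1 : One (opn2 G h k)) :
    One (opn2 G h (G.e k)) := by
  obtain ⟨k1, k2, hc, hV⟩ := one_iff.1 h1
  refine one_iff.2 ⟨fun h' => k2 ?_, fun h' => k1 (G.e_inj h'), ?_, hV⟩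
  · rw [← h', G.e2]
  · rw [D2_e]
    exact hc

theorem alt3_of_hub [AddCommGroup M] {c : (V : Type) → Gr V (n + 1) → Fin n → M}
    {W₂ : (V : Type) → Gr V (n + 1 + 3) → M} (h : Hub c W₂) : Alt3 W₂ := by
  constructor
  · intro V _ R
    rw [h.alt V R (swap 0 1), Perm.sign_swap (by decide)]
    simp
  · intro V _ R
    rw [h.alt V R (swap 1 2), Perm.sign_swap (by decide)]
    simp

/-- **The second opened edge of a rim graph may be replaced by any edge of the rim.** -/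
theorem base [AddCommGroup M] {c : (V : Type) → Gr V (n + 1) → Fin n → M}
    {W₂ : (V : Type) → Gr V (n + 1 + 3) → M} {W : (V : Type) → Gr V (n + 1 + 2 + 2) → M}
    (hA : Alt3 W₂) (hP : Pair c W₂ W) (V : Type) [Finite V] (G : Gr V (n + 1)) (R : Set V)
    (h k : V) (h1 : One (opn2 G h k)) (hR : Cy G R) (hne : R.Nonempty)
    (hd : ∀ v ∈ R, v ∉ D2 G h k)
    (ht : ∀ v, v ∉ R → v ∉ D2 G h k → G.r v ∈ R → On G R (G.e v) ∨ G.r (G.e v) = G.e v) :
    ∀ y ∈ R, W _ (opn2 G h k) = W _ (opn2 G h y) := by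
  obtain ⟨_, hl⟩ := base_leg h1 hR hne hd ht
  obtain ⟨k1, k2, hc, hV⟩ := one_iff.1 h1
  -- the vertices of `k` and `e k`
  have key1 : ∀ b y, (b = k ∨ b = G.e k) → y ∈ R → G.vt b y →
      W _ (opn2 G h y) = W _ (opn2 G h k) := by
    intro b y hb hy hv
    obtain ⟨hoy, R', hR', hkR', hd'⟩ := one_swap h1 hR hd hy
    have hbR' : b ∈ R' := by
      rcases hb with h2 | h2
      · rw [h2]
        exact hkR'
      · rw [h2]
        exact hR'.e _ hkR'
    have hyR' : y ∉ R' := fun h2 => hd' y h2 (Or.inr (Or.inl rfl))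
    have hry : G.r y ∈ R' := (on_vt hR' hv (Or.inl hbR')).resolve_left hyR'
    have e1 := hP.hub V G h y _ hoy (cy_opn2.2 ⟨R', rfl, hR', hd'⟩) (mem_up.2 hry)
    have hbD : b ∈ D2 G h k := by
      rcases hb with h2 | h2
      · exact Or.inr (Or.inl h2)
      · exact Or.inr (Or.inr h2)
    have hbR : b ∉ R := fun h2 => hd b h2 hbD
    have hrb : G.r b ∈ R := (on_vt hR (Gr.vt_symm G hv) (Or.inl hy)).resolve_left hbR
    have e2 : W _ (opn2 G h k) = at3 W₂ V G b := by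
      rcases hb with h2 | h2
      · rw [h2] at hrb ⊢
        exact hP.hub V G h k _ h1 (cy_opn2.2 ⟨R, rfl, hR, hd⟩) (mem_up.2 hrb)
      · rw [h2] at hrb ⊢
        rw [← hP.sw₂ V G h k h1]
        refine hP.hub V G h (G.e k) _ (one_e h1) (cy_opn2.2 ⟨R, rfl, hR, ?_⟩) (mem_up.2 hrb)
        rw [D2_e]
        exact hd
    rw [e1, e2, at3_vt hA G hv]
  -- crossing a letter
  have key3 : ∀ x y z, x ∈ R → y ∈ R → z ∉ R →
      (y = G.r x ∧ z = G.r (G.r x) ∨ z = G.r x ∧ y = G.r (G.r x)) →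
      W _ (opn2 G h x) = W _ (opn2 G h k) → W _ (opn2 G h y) = W _ (opn2 G h k) := by
    intro x y z hx hy hz hxyz hval
    have hvt : G.vt z y := by
      rcases hxyz with ⟨h5, h6⟩ | ⟨h6, h5⟩
      · rw [h5, h6]
        right; right
        rw [G.r3]
      · rw [h5, h6]
        right; left
        rfl
    have htv : (z = h ∨ z = G.e h ∨ ∃ i, G.e z = G.leg i) →
        W _ (opn2 G h y) = W _ (opn2 G h k) := by
      intro h5
      obtain ⟨hox, _⟩ := one_swap h1 hR hd hx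
      obtain ⟨hoy, _⟩ := one_swap h1 hR hd hy
      rw [← hval, hP.tv V G h x y z hxyz h5 hox, hP.sw₂ V G h y hoy]
    by_cases hzD : z ∈ D2 G h k
    · rcases hzD with (h5 | h5) | (h5 | h5)
      · exact htv (Or.inl h5)
      · exact htv (Or.inr (Or.inl h5))
      · exact key1 z y (Or.inl h5) hy hvt
      · exact key1 z y (Or.inr h5) hy hvt
    · have hrz : G.r z ∈ R := (on_vt hR (Gr.vt_symm G hvt) (Or.inl hy)).resolve_left hz
      obtain ⟨i, hi⟩ := (G.fix (G.e z)).1 (hl z hz hzD hrz)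
      exact htv (Or.inr (Or.inr ⟨i, hi.symm⟩))
  let S : Set V := {y | y ∈ R ∧ W _ (opn2 G h y) = W _ (opn2 G h k)}
  have hS : Cy G S := by
    refine ⟨fun w hw => ⟨hR.e _ hw.1, ?_⟩, fun w hw => ?_⟩
    · obtain ⟨how, _⟩ := one_swap h1 hR hd hw.1
      rw [hP.sw₂ V G h w how, hw.2]
    · rcases hR.two w hw.1 with ⟨h4, h5⟩ | ⟨h4, h5⟩
      · exact Or.inl ⟨⟨h4, key3 w (G.r w) (G.r (G.r w)) hw.1 h4 h5 (Or.inl ⟨rfl, rfl⟩) hw.2⟩,
          fun h' => h5 h'.1⟩
      · exact Or.inr ⟨fun h' => h4 h'.1,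
          ⟨h5, key3 w (G.r (G.r w)) (G.r w) hw.1 h5 h4 (Or.inr ⟨rfl, rfl⟩) hw.2⟩⟩
  have hkR : k ∉ R := fun h2 => hd k h2 (Or.inr (Or.inl rfl))
  have hSne : S.Nonempty := by
    have hin : G.r k ≠ k := by
      intro h2
      have h3 := leg_inner (opn2 G h k) h1.conn (by omega) (Fin.natAdd (n + 1 + 2) 0)
      have h4 : xe (opn2 G h k) (Fin.natAdd (n + 1 + 2) 0) = Sum.inl (Sum.inl k) := by
        show (opn2 G h k).e ((opn2 G h k).leg (Fin.natAdd (n + 1 + 2) 0)) = _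
        show ((G.opn h).opn (Sum.inl k)).e
          (((G.opn h).opn (Sum.inl k)).leg (Fin.natAdd (n + 1 + 2) 0)) = _
        rw [Gr.opn_leg_0]
        rfl
      rw [h4] at h3
      apply h3
      show (Sum.inl (Sum.inl (G.r k)) : (V ⊕ Bool) ⊕ Bool) = _
      rw [h2]
    rcases on_all hc hR hne hl k with h2 | ⟨h2, _⟩
    · have h3 := h2.resolve_left hkR
      exact ⟨G.r k, h3, key1 k (G.r k) (Or.inl rfl) h3 (Or.inr (Or.inl rfl))⟩
    · exact absurd h2 hin
  have hfin := sub_eq hc hR hl hS (fun w hw => hw.1) hSne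
  intro y hy
  have hyS : y ∈ S := by
    rw [hfin]
    exact hy
  exact hyS.2.symm

end Pool.Agent.SWT46
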