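import Mathlib
import Pool.Agent.SWT45.Ex
import Pool.Agent.SWT46.Ex

/-!
# Exchange of an opened edge
-/

set_option autoImplicit false

namespace Pool.Agent.SWT46

open Pool.Agent.SWT80 Pool.Agent.SWT65

/-- **M7: an opened edge may be exchanged for an edge of the rim.** -/
theorem exch {M : Type} {n : ℕ} [AddCommGroup M] {c : (V : Type) → Gr V (n + 1) → Fin n → M}
    {W₂ : (V : Type) → Gr V (n + 1 + 3) → M} {W : (V : Type) → Gr V (n + 1 + 2 + 2) → M}
    (hH : Hub c W₂) (hP : Pair c W₂ W) : Exch W :=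
  SWT45.exch_of_base hP.rel (fun V _ G R h k => base (alt3_of_hub hH) hP V G R h k)

end Pool.Agent.SWT46
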