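import Pool.Agent.SWT45.Stmts

/-!
# Flows without sources and sinks: the walk along the half-edges with flow one
-/

set_option autoImplicit false

namespace Pool.Agent.SWT46

open Equiv Pool.Agent.SWT80 Pool.Agent.SWT45
open scoped Classical

variable {V : Type} {n : ℕ}

/-- A flow without sources, sinks and zero vertices. -/
structure Reg (G : Gr V n) (φ : V → ZMod 3) : Prop where
  fl : Flow G φ
  ns : ∀ v, φ v ≠ 0 → ¬ (φ (G.r v) = φ v ∧ φ (G.r (G.r v)) = φ v)
  nz : ∀ x, G.r x ≠ x → ¬ (Lg G x ∧ Lg G (G.r x) ∧ Lg G (G.r (G.r x))) →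
    ¬ (φ x = 0 ∧ φ (G.r x) = 0 ∧ φ (G.r (G.r x)) = 0)

/-- The next half-edge with flow one. -/
noncomputable def nx (G : Gr V n) (φ : V → ZMod 3) (v : V) : V :=
  if φ (G.r (G.e v)) = 1 then G.r (G.e v) else G.r (G.r (G.e v))

/-- The half-edge with flow `-1` at the vertex of a half-edge with flow one. -/
noncomputable def op (G : Gr V n) (φ : V → ZMod 3) (v : V) : V :=
  if φ (G.r v) = 0 then G.r (G.r v) else G.r v

/-- The half-edge with flow zero at the vertex of a half-edge with flow one. -/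
noncomputable def zr (G : Gr V n) (φ : V → ZMod 3) (v : V) : V :=
  if φ (G.r v) = 0 then G.r v else G.r (G.r v)

/-- The sign of a half-edge with flow one. -/
noncomputable def eps (G : Gr V n) (φ : V → ZMod 3) (v : V) : ℤ := if φ (G.r v) = 0 then -1 else 1

/-- The product of the signs. -/
noncomputable def ep [Fintype V] (G : Gr V n) (φ : V → ZMod 3) : ℤ :=
  ∏ v ∈ (Finset.univ : Finset V).filter (fun v => φ v = 1), eps G φ v

theorem z3_1 : ∀ a b : ZMod 3, (1 : ZMod 3) + a + b = 0 → ¬ (a = 1 ∧ b = 1) →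
    (a = 0 ∧ b = 2) ∨ (a = 2 ∧ b = 0) := by decide

theorem z3_2 : ∀ a b : ZMod 3, (2 : ZMod 3) + a + b = 0 → ¬ (a = 2 ∧ b = 2) →
    (a = 0 ∧ b = 1) ∨ (a = 1 ∧ b = 0) := by decide

theorem z3_3 : ∀ a b c : ZMod 3, a + b + c = 0 → ¬ (a = 0 ∧ b = 0 ∧ c = 0) →
    (a ≠ 0 → ¬ (b = a ∧ c = a)) → a = 1 ∨ b = 1 ∨ c = 1 := by decide

theorem lg_e' {G : Gr V n} {v : V} (h : Lg G v) : Lg G (G.e v) := by
  rcases h with h | h
  · right
    rw [G.e2]
    exact h
  · left
    exact h

theorem lg_e {G : Gr V n} {v : V} : Lg G (G.e v) ↔ Lg G v :=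
  ⟨fun h => by
    have h1 := lg_e' h
    rwa [G.e2] at h1, fun h => lg_e' h⟩

namespace Reg

variable {G : Gr V n} {φ : V → ZMod 3} (h : Reg G φ)

include h

theorem lg {v : V} (hv : Lg G v) : φ v = 0 := by
  rcases hv with hv | hv
  · exact h.fl.leg v hv
  · have h1 := h.fl.leg _ hv
    rw [h.fl.e] at h1
    simpa using h1

theorem e1 {v : V} (hv : φ v = 1) : φ (G.e v) = 2 := by
  rw [h.fl.e, hv]
  decide

theorem e2 {v : V} (hv : φ v = 2) : φ (G.e v) = 1 := by
  rw [h.fl.e, hv]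
  decide

theorem tri1 {v : V} (hv : φ v = 1) : (φ (G.r v) = 0 ∧ φ (G.r (G.r v)) = 2) ∨
    (φ (G.r v) = 2 ∧ φ (G.r (G.r v)) = 0) := by
  have h1 := h.fl.r v
  have h2 := h.ns v (by rw [hv]; decide)
  rw [hv] at h1 h2
  exact z3_1 _ _ h1 h2

theorem tri2 {v : V} (hv : φ v = 2) : (φ (G.r v) = 0 ∧ φ (G.r (G.r v)) = 1) ∨
    (φ (G.r v) = 1 ∧ φ (G.r (G.r v)) = 0) := by
  have h1 := h.fl.r v
  have h2 := h.ns v (by rw [hv]; decide)
  rw [hv] at h1 h2
  exact z3_2 _ _ h1 h2

theorem some1 {x : V} (hx : G.r x ≠ x) (h3 : ¬ (Lg G x ∧ Lg G (G.r x) ∧ Lg G (G.r (G.r x)))) :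
    φ x = 1 ∨ φ (G.r x) = 1 ∨ φ (G.r (G.r x)) = 1 :=
  z3_3 _ _ _ (h.fl.r x) (h.nz x hx h3) (h.ns x)

theorem r_ne {v : V} (hv : φ v = 1) : G.r v ≠ v := by
  intro h1
  have h2 := h.fl.leg v h1
  rw [hv] at h2
  revert h2
  decide

theorem not_lg1 {v : V} (hv : φ v = 1) : ¬ Lg G v := by
  intro h1
  have h2 := h.lg h1
  rw [hv] at h2
  revert h2
  decide

theorem not_lg2 {v : V} (hv : φ v = 2) : ¬ Lg G v := by
  intro h1
  have h2 := h.lg h1
  rw [hv] at h2
  revert h2
  decide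

theorem op2 {v : V} (hv : φ v = 1) : φ (op G φ v) = 2 := by
  unfold op
  rcases h.tri1 hv with h1 | h1
  · rw [if_pos h1.1]
    exact h1.2
  · rw [if_neg (by rw [h1.1]; decide)]
    exact h1.1

theorem zr0 {v : V} (hv : φ v = 1) : φ (zr G φ v) = 0 := by
  unfold zr
  rcases h.tri1 hv with h1 | h1
  · rw [if_pos h1.1]
    exact h1.1
  · rw [if_neg (by rw [h1.1]; decide)]
    exact h1.2

theorem nx1 {v : V} (hv : φ v = 1) : φ (nx G φ v) = 1 := by
  unfold nx
  rcases h.tri2 (h.e1 hv) with h1 | h1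
  · rw [if_neg (by rw [h1.1]; decide)]
    exact h1.2
  · rw [if_pos h1.1]
    exact h1.1

/-- The half-edge with flow `-1` at the next vertex is the other half of the edge. -/
theorem op_nx {v : V} (hv : φ v = 1) : op G φ (nx G φ v) = G.e v := by
  unfold op nx
  rcases h.tri2 (h.e1 hv) with h1 | h1
  · rw [if_neg (by rw [h1.1]; decide : ¬ φ (G.r (G.e v)) = 1)]
    rw [G.r3, h.e1 hv, if_neg (by decide)]
  · rw [if_pos h1.1]
    rw [h1.2, if_pos rfl, G.r3]

theorem nx_op {w : V} (hw : φ w = 1) : nx G φ (G.e (op G φ w)) = w := by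
  unfold op nx
  rcases h.tri1 hw with h1 | h1
  · rw [if_pos h1.1, G.e2, G.r3, hw, if_pos rfl]
  · rw [if_neg (by rw [h1.1]; decide : ¬ φ (G.r w) = 0), G.e2]
    rw [h1.2, if_neg (by decide), G.r3]

/-- The walk. -/
noncomputable def N : Perm {v : V // φ v = 1} where
  toFun v := ⟨nx G φ v, h.nx1 v.2⟩
  invFun w := ⟨G.e (op G φ w), h.e2 (h.op2 w.2)⟩
  left_inv v := Subtype.ext (by
    show G.e (op G φ (nx G φ v)) = v
    rw [h.op_nx v.2, G.e2])
  right_inv w := Subtype.ext (h.nx_op w.2)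

theorem N_apply (v : {v : V // φ v = 1}) : ((h.N v : {v : V // φ v = 1}) : V) = nx G φ v := rfl

/-- The number of circuits is one. -/
def One : Prop := ∀ u v : {v : V // φ v = 1}, h.N.SameCycle u v

/-- The vertex of a half-edge `v` with flow one is real iff its half-edge with flow zero does not
belong to a leg. -/
theorem real_iff {v : V} (hv : φ v = 1) : Real G v ↔ ¬ Lg G (zr G φ v) := by
  unfold SWT45.Real zr
  rcases h.tri1 hv with h1 | h1
  · rw [if_pos h1.1]
    exact ⟨fun h2 => h2.2.1, fun h2 => ⟨h.not_lg1 hv, h2, h.not_lg2 h1.2⟩⟩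
  · rw [if_neg (by rw [h1.1]; decide : ¬ φ (G.r v) = 0)]
    exact ⟨fun h2 => h2.2.2, fun h2 => ⟨h.not_lg1 hv, h.not_lg2 h1.1, h2⟩⟩

theorem real_r {v : V} (hv : Real G v) : Real G (G.r v) := by
  refine ⟨hv.2.1, hv.2.2, ?_⟩
  rw [G.r3]
  exact hv.1

/-- One third of the half-edges at real vertices have flow one. -/
theorem card_real [Fintype V] :
    3 * ((Finset.univ : Finset V).filter fun v => Real G v ∧ φ v = 1).card =
      ((Finset.univ : Finset V).filter fun v => Real G v).card := by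
  have key : ∀ (f : Perm V), (∀ v, Real G (f v) ↔ Real G v) →
      ((Finset.univ : Finset V).filter fun v => Real G v ∧ φ v = 1).card =
        ∑ v ∈ (Finset.univ : Finset V).filter (fun v => Real G v), (if φ (f v) = 1 then 1 else 0)
        := by
    intro f hf
    rw [Finset.card_filter, Finset.sum_filter, ← Equiv.sum_comp f]
    refine Finset.sum_congr rfl fun v _ => ?_
    by_cases h1 : Real G v
    · by_cases h2 : φ (f v) = 1
      · rw [if_pos ⟨(hf v).2 h1, h2⟩, if_pos h1, if_pos h2]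
      · rw [if_neg (fun h3 => h2 h3.2), if_pos h1, if_neg h2]
    · rw [if_neg (fun h3 => h1 ((hf v).1 h3.1)), if_neg h1]
  have hr : ∀ v, Real G (G.r v) ↔ Real G v := fun v =>
    ⟨fun h1 => by have h2 := h.real_r (h.real_r h1); rwa [G.r3] at h2, fun h1 => h.real_r h1⟩
  have k0 := key 1 (fun v => Iff.rfl)
  have k1 := key G.r hr
  have k2 := key (G.r * G.r) (fun v => (hr _).trans (hr v))
  have k3 : 3 * ((Finset.univ : Finset V).filter fun v => Real G v ∧ φ v = 1).card =
      ∑ v ∈ (Finset.univ : Finset V).filter (fun v => Real G v),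
        ((if φ v = 1 then 1 else 0) + (if φ (G.r v) = 1 then 1 else 0) +
          (if φ (G.r (G.r v)) = 1 then 1 else 0)) := by
    rw [Finset.sum_add_distrib, Finset.sum_add_distrib]
    have e0 : ∑ v ∈ (Finset.univ : Finset V).filter (fun v => Real G v),
        (if φ v = 1 then 1 else 0) =
        ((Finset.univ : Finset V).filter fun v => Real G v ∧ φ v = 1).card := k0.symm
    have e2 : ∑ v ∈ (Finset.univ : Finset V).filter (fun v => Real G v),
        (if φ (G.r (G.r v)) = 1 then 1 else 0) =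
        ((Finset.univ : Finset V).filter fun v => Real G v ∧ φ v = 1).card := k2.symm
    rw [e0, ← k1, e2]
    ring
  rw [k3, Finset.card_eq_sum_ones]
  refine Finset.sum_congr rfl fun v hv => ?_
  have hR : Real G v := (Finset.mem_filter.1 hv).2
  have hx : G.r v ≠ v := fun h1 => hR.1 (Or.inl h1)
  rcases h.some1 hx (fun h3 => hR.1 h3.1) with h1 | h1 | h1
  · rcases h.tri1 h1 with h2 | h2
    · rw [h1, h2.1, h2.2]
      decide
    · rw [h1, h2.1, h2.2]
      decide
  · rcases h.tri1 h1 with h2 | h2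
    · rw [G.r3] at h2
      rw [h1, h2.1, h2.2]
      decide
    · rw [G.r3] at h2
      rw [h1, h2.1, h2.2]
      decide
  · have h2 := h.tri1 h1
    rw [G.r3] at h2
    rcases h2 with h2 | h2
    · rw [h1, h2.1, h2.2]
      decide
    · rw [h1, h2.1, h2.2]
      decide

end Reg

end Pool.Agent.SWT46
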