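import Mathlib

/-!
# Signed sums over the invariant sets of a permutation
-/

set_option autoImplicit false

namespace Pool.Agent.SWT46

open Equiv Finset
open scoped Classical

theorem self_inv' {α : Type} (f : Perm α) (x : α) : f (f⁻¹ x) = x := f.apply_symm_apply x

variable {α : Type} [Fintype α] [DecidableEq α]

/-- `O` is invariant. -/
def Inv (N : Perm α) (O : Finset α) : Prop := ∀ x, N x ∈ O ↔ x ∈ O

/-- The restriction of `N` to `O` (the identity outside `O`). -/
noncomputable def rs (N : Perm α) (O : Finset α) : Perm α :=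
  if h : ∀ x, N x ∈ O ↔ x ∈ O then Perm.ofSubtype (N.subtypePerm (p := fun x => x ∈ O) h) else 1

theorem rs_mem {N : Perm α} {O : Finset α} (h : Inv N O) {x : α} (hx : x ∈ O) :
    rs N O x = N x := by
  unfold rs
  rw [dif_pos (show ∀ x, N x ∈ O ↔ x ∈ O from h), Perm.ofSubtype_apply_of_mem _ hx]
  rfl

theorem rs_not {N : Perm α} {O : Finset α} (h : Inv N O) {x : α} (hx : x ∉ O) :
    rs N O x = x := by
  unfold rs
  rw [dif_pos (show ∀ x, N x ∈ O ↔ x ∈ O from h), Perm.ofSubtype_apply_of_not_mem _ hx]

/-- The weight of an invariant set. -/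
noncomputable def wO (N : Perm α) (O : Finset α) : ℤ :=
  if Inv N O then ((Perm.sign (rs N O) : ℤˣ) : ℤ) * (-1) ^ O.card else 0

/-- The signed sum over the subsets of `S`. -/
noncomputable def DS (N : Perm α) (g : α → ℤ) (S : Finset α) : ℤ :=
  ∑ O ∈ S.powerset, wO N O * ∏ v ∈ S \ O, g v

theorem Inv.union {N : Perm α} {A B : Finset α} (hA : Inv N A) (hB : Inv N B) :
    Inv N (A ∪ B) := fun x => by
  rw [mem_union, mem_union, hA, hB]

theorem Inv.inter {N : Perm α} {A B : Finset α} (hA : Inv N A) (hB : Inv N B) :
    Inv N (A ∩ B) := fun x => by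
  rw [mem_inter, mem_inter, hA, hB]

theorem Inv.sdiff {N : Perm α} {A B : Finset α} (hA : Inv N A) (hB : Inv N B) :
    Inv N (A \ B) := fun x => by
  rw [mem_sdiff, mem_sdiff, hA, hB]

theorem rs_union {N : Perm α} {A B : Finset α} (hA : Inv N A) (hB : Inv N B)
    (hd : Disjoint A B) : rs N (A ∪ B) = rs N A * rs N B := by
  ext x
  rw [Perm.mul_apply]
  by_cases hx : x ∈ B
  · have h1 : N x ∈ B := (hB x).2 hx
    rw [rs_mem (hA.union hB) (mem_union_right _ hx), rs_mem hB hx,
      rs_not hA (fun h2 => disjoint_left.1 hd h2 h1)]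
  · rw [rs_not hB hx]
    by_cases hy : x ∈ A
    · rw [rs_mem (hA.union hB) (mem_union_left _ hy), rs_mem hA hy]
    · rw [rs_not hA hy, rs_not (hA.union hB)]
      intro h1
      rcases mem_union.1 h1 with h1 | h1
      · exact hy h1
      · exact hx h1

theorem wO_union {N : Perm α} {A B S T : Finset α} (hS : Inv N S) (hT : Inv N T)
    (hd : Disjoint S T) (hA : A ⊆ S) (hB : B ⊆ T) : wO N (A ∪ B) = wO N A * wO N B := by
  have hdAB : Disjoint A B := disjoint_of_subset_left hA (disjoint_of_subset_right hB hd)
  unfold wO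
  by_cases h1 : Inv N A
  · by_cases h2 : Inv N B
    · rw [if_pos h1, if_pos h2, if_pos (h1.union h2), rs_union h1 h2 hdAB, map_mul,
        card_union_of_disjoint hdAB, pow_add]
      push_cast
      ring
    · rw [if_neg h2, mul_zero, if_neg]
      intro h3
      apply h2
      have h4 := h3.inter hT
      have h5 : (A ∪ B) ∩ T = B := by
        ext x
        rw [mem_inter, mem_union]
        constructor
        · rintro ⟨h6 | h6, h7⟩
          · exact absurd h7 (disjoint_left.1 hd (hA h6))
          · exact h6
        · intro h6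
          exact ⟨Or.inr h6, hB h6⟩
      rwa [h5] at h4
  · rw [if_neg h1, zero_mul, if_neg]
    intro h3
    apply h1
    have h4 := h3.inter hS
    have h5 : (A ∪ B) ∩ S = A := by
      ext x
      rw [mem_inter, mem_union]
      constructor
      · rintro ⟨h6 | h6, h7⟩
        · exact h6
        · exact absurd (hB h6) (disjoint_left.1 hd h7)
      · intro h6
        exact ⟨Or.inl h6, hA h6⟩
    rwa [h5] at h4

theorem DS_union {N : Perm α} (g : α → ℤ) {S T : Finset α} (hS : Inv N S) (hT : Inv N T)
    (hd : Disjoint S T) : DS N g (S ∪ T) = DS N g S * DS N g T := by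
  unfold DS
  rw [sum_mul_sum, ← sum_product']
  refine sum_bij' (fun O _ => (O ∩ S, O ∩ T)) (fun O _ => O.1 ∪ O.2) ?_ ?_ ?_ ?_ ?_
  · intro O _
    rw [mem_product]
    exact ⟨mem_powerset.2 inter_subset_right, mem_powerset.2 inter_subset_right⟩
  · intro O hO
    rw [mem_product] at hO
    exact mem_powerset.2 (union_subset_union (mem_powerset.1 hO.1) (mem_powerset.1 hO.2))
  · intro O hO
    have h1 := mem_powerset.1 hO
    ext x
    rw [mem_union, mem_inter, mem_inter]
    constructor
    · rintro (h2 | h2)
      · exact h2.1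
      · exact h2.1
    · intro h2
      rcases mem_union.1 (h1 h2) with h3 | h3
      · exact Or.inl ⟨h2, h3⟩
      · exact Or.inr ⟨h2, h3⟩
  · intro O hO
    rw [mem_product] at hO
    have h1 := mem_powerset.1 hO.1
    have h2 := mem_powerset.1 hO.2
    refine Prod.ext ?_ ?_
    · ext x
      show x ∈ (O.1 ∪ O.2) ∩ S ↔ x ∈ O.1
      rw [mem_inter, mem_union]
      constructor
      · rintro ⟨h3 | h3, h4⟩
        · exact h3
        · exact absurd (h2 h3) (disjoint_left.1 hd h4)
      · intro h3
        exact ⟨Or.inl h3, h1 h3⟩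
    · ext x
      show x ∈ (O.1 ∪ O.2) ∩ T ↔ x ∈ O.2
      rw [mem_inter, mem_union]
      constructor
      · rintro ⟨h3 | h3, h4⟩
        · exact absurd h4 (disjoint_left.1 hd (h1 h3))
        · exact h3
      · intro h3
        exact ⟨Or.inr h3, h2 h3⟩
  · intro O hO
    have h1 := mem_powerset.1 hO
    have h2 : (O ∩ S) ∪ (O ∩ T) = O := by
      rw [← inter_union_distrib_left]
      exact inter_eq_left.2 h1
    have h3 : wO N O = wO N (O ∩ S) * wO N (O ∩ T) := by
      rw [← wO_union hS hT hd inter_subset_right inter_subset_right, h2]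
    have h4 : (S ∪ T) \ O = (S \ (O ∩ S)) ∪ (T \ (O ∩ T)) := by
      ext x
      simp only [mem_sdiff, mem_union, mem_inter]
      tauto
    have h5 : Disjoint (S \ (O ∩ S)) (T \ (O ∩ T)) :=
      disjoint_of_subset_left sdiff_subset (disjoint_of_subset_right sdiff_subset hd)
    show wO N O * _ = (wO N (O ∩ S) * _) * (wO N (O ∩ T) * _)
    rw [h3, h4, prod_union h5]
    ring

/-- An invariant set all of whose elements are in one cycle, which is not empty. -/
theorem DS_cycle {N : Perm α} (g : α → ℤ) {C : Finset α} (hC : Inv N C) (hne : C.Nonempty)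
    (h1 : ∀ u ∈ C, ∀ v ∈ C, N.SameCycle u v) : DS N g C = ∏ v ∈ C, g v - 1 := by
  have hsub : ∀ O ⊆ C, Inv N O → O = ∅ ∨ O = C := by
    intro O hO hI
    by_cases h2 : O = ∅
    · exact Or.inl h2
    · right
      obtain ⟨u, hu⟩ := Finset.nonempty_iff_ne_empty.2 h2
      refine Subset.antisymm hO fun v hv => ?_
      obtain ⟨k, hk⟩ := h1 u (hO hu) v hv
      have key : ∀ k : ℤ, ∀ x, x ∈ O → (N ^ k) x ∈ O := by
        intro k
        induction k using Int.induction_on with
        | zero => intro x hx; simpa using hx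
        | succ i ih =>
          intro x hx
          rw [zpow_add_one, Perm.mul_apply]
          exact ih _ ((hI x).2 hx)
        | pred i ih =>
          intro x hx
          rw [zpow_sub_one, Perm.mul_apply]
          refine ih _ ?_
          rw [← hI, self_inv']
          exact hx
      rw [← hk]
      exact key k u hu
  have h3 : DS N g C = wO N ∅ * ∏ v ∈ C \ ∅, g v + wO N C * ∏ v ∈ C \ C, g v := by
    unfold DS
    have h4 : ({∅, C} : Finset (Finset α)) ⊆ C.powerset := by
      intro O hO
      rw [mem_insert, mem_singleton] at hO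
      rcases hO with rfl | rfl
      · exact mem_powerset.2 (empty_subset _)
      · exact mem_powerset.2 (Subset.refl _)
    rw [← sum_subset h4, sum_pair]
    · exact (Finset.nonempty_iff_ne_empty.1 hne).symm
    · intro O hO hO'
      rw [mem_insert, mem_singleton] at hO'
      have h5 : ¬ Inv N O := fun h6 => hO' (hsub O (mem_powerset.1 hO) h6)
      unfold wO
      rw [if_neg h5, zero_mul]
  have h6 : wO N ∅ = 1 := by
    have h7 : Inv N (∅ : Finset α) := fun x => by simp
    unfold wO
    rw [if_pos h7]
    have h8 : rs N (∅ : Finset α) = 1 := by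
      ext x
      rw [rs_not h7 (by simp), Perm.one_apply]
    rw [h8]
    simp
  have h7 : wO N C = -1 := by
    unfold wO
    rw [if_pos hC]
    by_cases h8 : C.card = 1
    · obtain ⟨a, rfl⟩ := card_eq_one.1 h8
      have h9 : rs N {a} = 1 := by
        ext x
        rw [Perm.one_apply]
        by_cases hx : x ∈ ({a} : Finset α)
        · rw [rs_mem hC hx]
          have h10 := (hC x).2 hx
          rw [mem_singleton] at hx h10
          rw [h10, hx]
        · rw [rs_not hC hx]
      rw [h9]
      simp
    · have h9 : (rs N C).IsCycle := by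
        obtain ⟨u, hu⟩ := hne
        have h10 : ∃ v ∈ C, v ≠ u := by
          by_contra h11
          push Not at h11
          exact h8 (card_eq_one.2 ⟨u, eq_singleton_iff_unique_mem.2 ⟨hu, h11⟩⟩)
        have hpow : ∀ k : ℤ, ∀ x ∈ C, (rs N C ^ k) x = (N ^ k) x ∧ (N ^ k) x ∈ C := by
          intro k
          induction k using Int.induction_on with
          | zero => intro x hx; exact ⟨by simp, by simpa using hx⟩
          | succ i ih =>
            intro x hx
            rw [zpow_add_one, zpow_add_one, Perm.mul_apply, Perm.mul_apply, rs_mem hC hx]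
            exact ih _ ((hC x).2 hx)
          | pred i ih =>
            intro x hx
            rw [zpow_sub_one, zpow_sub_one, Perm.mul_apply, Perm.mul_apply]
            have h12 : N⁻¹ x ∈ C := by
              rw [← hC, self_inv']
              exact hx
            have h13 : (rs N C)⁻¹ x = N⁻¹ x := by
              rw [Perm.inv_eq_iff_eq, rs_mem hC h12, self_inv']
            rw [h13]
            exact ih _ h12
        refine ⟨u, ?_, ?_⟩
        · intro h11
          rw [rs_mem hC hu] at h11
          obtain ⟨v, hv, hvu⟩ := h10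
          obtain ⟨k, hk⟩ := h1 u hu v hv
          have h12 : (N ^ k) u = u := by
            have h13 : Function.IsFixedPt N u := h11
            exact (Function.IsFixedPt.perm_zpow h13 k)
          exact hvu (hk.symm.trans h12)
        · intro v hv
          have hvC : v ∈ C := by
            by_contra h12
            exact hv (rs_not hC h12)
          obtain ⟨k, hk⟩ := h1 u hu v hvC
          exact ⟨k, by rw [(hpow k u hu).1, hk]⟩
      have h10 : (rs N C).support = C := by
        ext x
        rw [Perm.mem_support]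
        constructor
        · intro h11
          by_contra h12
          exact h11 (rs_not hC h12)
        · intro hx h11
          rw [rs_mem hC hx] at h11
          have h12 : ∃ v ∈ C, v ≠ x := by
            by_contra h11
            push Not at h11
            exact h8 (card_eq_one.2 ⟨x, eq_singleton_iff_unique_mem.2 ⟨hx, h11⟩⟩)
          obtain ⟨v, hv, hvu⟩ := h12
          obtain ⟨k, hk⟩ := h1 x hx v hv
          have h13 : (N ^ k) x = x := Function.IsFixedPt.perm_zpow h11 k
          exact hvu (hk.symm.trans h13)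
      rw [h9.sign, h10]
      push_cast
      have h11 : ((-1 : ℤ) ^ C.card) * (-1) ^ C.card = 1 := by
        rw [← mul_pow]
        simp
      linear_combination -h11
  rw [h3, h6, h7, sdiff_empty, sdiff_self, one_mul]
  simp
  ring

/-- One cycle. -/
theorem DS_one {N : Perm α} (g : α → ℤ) [Nonempty α] (h : ∀ u v, N.SameCycle u v) :
    DS N g univ = ∏ v, g v - 1 :=
  DS_cycle g (fun x => by simp) univ_nonempty fun u _ v _ => h u v

/-- The cycle of `u`. -/
noncomputable def cy (N : Perm α) (u : α) : Finset α := univ.filter fun v => N.SameCycle u v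

theorem cy_inv (N : Perm α) (u : α) : Inv N (cy N u) := fun x => by
  unfold cy
  rw [mem_filter, mem_filter, Perm.sameCycle_apply_right]
  simp

theorem DS_three {N : Perm α} {g : α → ℤ} (hg : ∀ a, (3 : ℤ) ∣ g a - 1) (u : α) :
    (3 : ℤ) ∣ DS N g (cy N u) := by
  rw [DS_cycle g (cy_inv N u) ⟨u, mem_filter.2 ⟨mem_univ _, Perm.SameCycle.refl _ _⟩⟩
    (fun a ha b hb => ((mem_filter.1 ha).2.symm).trans (mem_filter.1 hb).2)]
  have key : ∀ T : Finset α, (3 : ℤ) ∣ ∏ v ∈ T, g v - 1 := by
    intro T
    induction T using Finset.induction_on with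
    | empty => simp
    | insert a T ha ih =>
      rw [prod_insert ha]
      have h1 := hg a
      obtain ⟨x, hx⟩ := h1
      obtain ⟨y, hy⟩ := ih
      exact ⟨x * ∏ v ∈ T, g v + y, by linear_combination (∏ v ∈ T, g v) * hx + hy⟩
  exact key _

/-- At least two cycles. -/
theorem DS_nine {N : Perm α} {g : α → ℤ} (hg : ∀ a, (3 : ℤ) ∣ g a - 1) {u v : α}
    (h : ¬ N.SameCycle u v) : (9 : ℤ) ∣ DS N g univ := by
  have hI : Inv N (univ : Finset α) := fun x => by simp
  have h1 : (univ : Finset α) = cy N u ∪ (univ \ cy N u) := by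
    rw [union_sdiff_of_subset (subset_univ _)]
  have h2 : Inv N (univ \ cy N u) := hI.sdiff (cy_inv N u)
  have h3 : univ \ cy N u = cy N v ∪ ((univ \ cy N u) \ cy N v) := by
    rw [union_sdiff_of_subset]
    intro x hx
    rw [mem_sdiff]
    refine ⟨mem_univ _, fun hx' => h ?_⟩
    exact (mem_filter.1 hx').2.trans (mem_filter.1 hx).2.symm
  rw [h1, DS_union g (cy_inv N u) h2 disjoint_sdiff, h3,
    DS_union g (cy_inv N v) (h2.sdiff (cy_inv N v)) disjoint_sdiff]
  obtain ⟨x, hx⟩ := DS_three (N := N) hg u
  obtain ⟨y, hy⟩ := DS_three (N := N) hg v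
  exact ⟨x * y * DS N g ((univ \ cy N u) \ cy N v), by rw [hx, hy]; ring⟩

end Pool.Agent.SWT46
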