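import Pool.Agent.SWT46.Base
import Pool.Agent.SWT46.Cyc

/-!
# The state sum of `osp(1|2)` for a flow without sources and sinks
-/

set_option autoImplicit false

namespace Pool.Agent.SWT46

open Equiv Pool.Agent.SWT80 Pool.Agent.SWT45
open scoped Classical

theorem osp_ok : osp.Ok where
  du_du := by decide
  odd_du := by decide
  pos_du := by decide
  cyc := by decide
  par := by decide

variable {V : Type} {n : ℕ} {G : Gr V n} {φ : V → ZMod 3}

/-- Membership in a set of half-edges with flow one. -/
def inO (O : Finset {v : V // φ v = 1}) (v : V) : Prop :=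
  ∃ hv : φ v = 1, (⟨v, hv⟩ : {v : V // φ v = 1}) ∈ O

/-- The state with the odd labels at `O`. -/
noncomputable def st (G : Gr V n) (O : Finset {v : V // φ v = 1}) (v : V) : Option (Fin 5) :=
  if Lg G v then none else if φ v = 0 then some 0 else
    if φ v = 1 then (if inO O v then some 1 else some 2)
    else (if inO O (G.e v) then some 3 else some 4)

theorem inO_iff {O : Finset {v : V // φ v = 1}} (v : {v : V // φ v = 1}) :
    inO O (v : V) ↔ v ∈ O := ⟨fun ⟨_, h2⟩ => h2, fun h1 => ⟨v.2, h1⟩⟩

theorem st_lg {O : Finset {v : V // φ v = 1}} {v : V} (hv : Lg G v) : st G O v = none := by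
  unfold st
  rw [if_pos hv]

theorem st_0 {O : Finset {v : V // φ v = 1}} {v : V} (hv : ¬ Lg G v) (h0 : φ v = 0) :
    st G O v = some 0 := by
  unfold st
  rw [if_neg hv, if_pos h0]

theorem st_1 {O : Finset {v : V // φ v = 1}} {v : V} (hv : ¬ Lg G v) (h1 : φ v = 1) :
    st G O v = if inO O v then some 1 else some 2 := by
  unfold st
  rw [if_neg hv, if_neg (by rw [h1]; decide), if_pos h1]

theorem st_2 {O : Finset {v : V // φ v = 1}} {v : V} (hv : ¬ Lg G v) (h2 : φ v = 2) :
    st G O v = if inO O (G.e v) then some 3 else some 4 := by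
  unfold st
  rw [if_neg hv, if_neg (by rw [h2]; decide), if_neg (by rw [h2]; decide)]

theorem ocl0 : ∀ b : Fin 5, ocl b = 0 → b = 0 := by decide
theorem ocl1 : ∀ b : Fin 5, ocl b = 1 → b = 1 ∨ b = 2 := by decide
theorem ocl2 : ∀ b : Fin 5, ocl b = 2 → b = 3 ∨ b = 4 := by decide
theorem z3c : ∀ a : ZMod 3, a = 0 ∨ a = 1 ∨ a = 2 := by decide

namespace Reg

variable (h : Reg G φ)

include h

theorem st_isSt (O : Finset {v : V // φ v = 1}) : IsSt osp G (Al ocl G φ) (st G O) := by
  constructor
  · intro v
    by_cases hv : Lg G v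
    · rw [st_lg hv]
      exact hv
    · rcases z3c (φ v) with h1 | h1 | h1
      · rw [st_0 hv h1]
        exact ⟨hv, by rw [h1]; decide⟩
      · rw [st_1 hv h1]
        split
        · exact ⟨hv, by rw [h1]; decide⟩
        · exact ⟨hv, by rw [h1]; decide⟩
      · rw [st_2 hv h1]
        split
        · exact ⟨hv, by rw [h1]; decide⟩
        · exact ⟨hv, by rw [h1]; decide⟩
  · intro v
    by_cases hv : Lg G v
    · rw [st_lg hv, st_lg (lg_e.2 hv)]
      rfl
    · have hv' : ¬ Lg G (G.e v) := fun h1 => hv (lg_e.1 h1)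
      rcases z3c (φ v) with h1 | h1 | h1
      · rw [st_0 hv h1, st_0 hv' (by rw [h.fl.e, h1]; decide)]
        rfl
      · rw [st_1 hv h1, st_2 hv' (h.e1 h1), G.e2]
        split
        · rfl
        · rfl
      · rw [st_2 hv h1, st_1 hv' (h.e2 h1)]
        split
        · rfl
        · rfl

theorem st_surj [Fintype V] (s : V → Option (Fin 5)) (hs : IsSt osp G (Al ocl G φ) s) :
    st G ((Finset.univ : Finset {v : V // φ v = 1}).filter fun v => s v = some 1) = s := by
  funext v
  by_cases hv : Lg G v
  · rw [st_lg hv]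
    have h1 := hs.1 v
    cases hsv : s v with
    | none => rfl
    | some b =>
      rw [hsv] at h1
      exact absurd hv h1.1
  · have h1 := hs.1 v
    cases hsv : s v with
    | none =>
      rw [hsv] at h1
      exact absurd h1 hv
    | some b =>
      rw [hsv] at h1
      have h2 : ocl b = φ v := h1.2
      rcases z3c (φ v) with h3 | h3 | h3
      · rw [st_0 hv h3]
        rw [h3] at h2
        rw [ocl0 b h2]
      · rw [st_1 hv h3]
        rw [h3] at h2
        have h4 : inO ((Finset.univ : Finset {v : V // φ v = 1}).filter fun v => s v = some 1) v ↔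
            s v = some 1 := by
          constructor
          · rintro ⟨h5, h6⟩
            exact (Finset.mem_filter.1 h6).2
          · intro h5
            exact ⟨h3, Finset.mem_filter.2 ⟨Finset.mem_univ _, h5⟩⟩
        rcases ocl1 b h2 with rfl | rfl
        · rw [if_pos (h4.2 hsv)]
        · rw [if_neg]
          intro h5
          rw [h4, hsv] at h5
          revert h5
          decide
      · rw [st_2 hv h3]
        rw [h3] at h2
        have he := h.e2 h3
        have h4 : inO ((Finset.univ : Finset {v : V // φ v = 1}).filter fun v => s v = some 1)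
            (G.e v) ↔ s (G.e v) = some 1 := by
          constructor
          · rintro ⟨h5, h6⟩
            exact (Finset.mem_filter.1 h6).2
          · intro h5
            exact ⟨he, Finset.mem_filter.2 ⟨Finset.mem_univ _, h5⟩⟩
        have h5 : s (G.e v) = osp.du (some b) := by rw [hs.2 v, hsv]
        rcases ocl2 b h2 with rfl | rfl
        · rw [if_pos]
          rw [h4, h5]
          rfl
        · rw [if_neg]
          rw [h4, h5]
          decide

/-- The state sum as a sum over the sets of half-edges with flow one. -/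
theorem cosp_sum [Fintype V] :
    cosp G φ = ∑ O : Finset {v : V // φ v = 1}, wt osp G (st G O) := by
  unfold cosp Z
  symm
  refine Finset.sum_bij' (fun O _ => st G O)
    (fun s _ => (Finset.univ : Finset {v : V // φ v = 1}).filter fun v => s v = some 1)
    ?_ ?_ ?_ ?_ ?_
  · intro O _
    exact Finset.mem_filter.2 ⟨Finset.mem_univ _, h.st_isSt O⟩
  · intro s _
    exact Finset.mem_univ _
  · intro O _
    ext v
    rw [Finset.mem_filter]
    show _ ∧ st G O v = some 1 ↔ _
    rw [st_1 (h.not_lg1 v.2) v.2]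
    constructor
    · rintro ⟨_, h1⟩
      by_contra h2
      rw [if_neg (fun h3 => h2 ((inO_iff v).1 h3))] at h1
      revert h1
      decide
    · intro h1
      exact ⟨Finset.mem_univ _, by rw [if_pos ((inO_iff v).2 h1)]⟩
  · intro s hs
    exact h.st_surj s (Finset.mem_filter.1 hs).2
  · intro O _
    rfl

theorem Ninv (w : {v : V // φ v = 1}) : ((h.N⁻¹ w : {v : V // φ v = 1}) : V) =
    G.e (op G φ w) := rfl

/-- The weight of a vertex with flow. -/
theorem fval (O : Finset {v : V // φ v = 1}) (w : {v : V // φ v = 1}) :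
    osp.T (st G O w) (st G O (G.r w)) (st G O (G.r (G.r w))) =
      if (w ∈ O ↔ h.N⁻¹ w ∈ O) then
        (if w ∈ O then -1 else eps G φ w * (if Lg G (zr G φ w) then 1 else -2)) else 0 := by
  have h1 := st_1 (O := O) (h.not_lg1 w.2) w.2
  have hop := h.op2 w.2
  have h2 := st_2 (O := O) (h.not_lg2 hop) hop
  have h3 : inO O (w : V) ↔ w ∈ O := inO_iff w
  have h4 : inO O (G.e (op G φ w)) ↔ h.N⁻¹ w ∈ O := by
    rw [← h.Ninv w]
    exact inO_iff _
  rcases h.tri1 w.2 with h5 | h5
  · have hop' : op G φ w = G.r (G.r w) := by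
      unfold op
      rw [if_pos h5.1]
    have hzr : zr G φ w = G.r w := by
      unfold zr
      rw [if_pos h5.1]
    have heps : eps G φ w = -1 := by
      unfold eps
      rw [if_pos h5.1]
    rw [hop'] at h2 h4
    rw [h1, h2, hzr, heps]
    by_cases h6 : Lg G (G.r w)
    · rw [st_lg h6, if_pos h6]
      by_cases h7 : w ∈ O
      · by_cases h8 : h.N⁻¹ w ∈ O
        · rw [if_pos (h3.2 h7), if_pos (h4.2 h8), if_pos ⟨fun _ => h8, fun _ => h7⟩, if_pos h7]
          decide
        · rw [if_pos (h3.2 h7), if_neg (fun h9 => h8 (h4.1 h9)), if_neg (fun h9 => h8 (h9.1 h7))]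
          decide
      · by_cases h8 : h.N⁻¹ w ∈ O
        · rw [if_neg (fun h9 => h7 (h3.1 h9)), if_pos (h4.2 h8),
            if_neg (fun h9 => h7 (h9.2 h8))]
          decide
        · rw [if_neg (fun h9 => h7 (h3.1 h9)), if_neg (fun h9 => h8 (h4.1 h9)),
            if_pos ⟨fun h9 => absurd h9 h7, fun h9 => absurd h9 h8⟩, if_neg h7]
          decide
    · rw [st_0 h6 h5.1, if_neg h6]
      by_cases h7 : w ∈ O
      · by_cases h8 : h.N⁻¹ w ∈ O
        · rw [if_pos (h3.2 h7), if_pos (h4.2 h8), if_pos ⟨fun _ => h8, fun _ => h7⟩, if_pos h7]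
          decide
        · rw [if_pos (h3.2 h7), if_neg (fun h9 => h8 (h4.1 h9)), if_neg (fun h9 => h8 (h9.1 h7))]
          decide
      · by_cases h8 : h.N⁻¹ w ∈ O
        · rw [if_neg (fun h9 => h7 (h3.1 h9)), if_pos (h4.2 h8),
            if_neg (fun h9 => h7 (h9.2 h8))]
          decide
        · rw [if_neg (fun h9 => h7 (h3.1 h9)), if_neg (fun h9 => h8 (h4.1 h9)),
            if_pos ⟨fun h9 => absurd h9 h7, fun h9 => absurd h9 h8⟩, if_neg h7]
          decide
  · have hr0 : ¬ φ (G.r w) = 0 := by
      rw [h5.1]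
      decide
    have hop' : op G φ w = G.r w := by
      unfold op
      rw [if_neg hr0]
    have hzr : zr G φ w = G.r (G.r w) := by
      unfold zr
      rw [if_neg hr0]
    have heps : eps G φ w = 1 := by
      unfold eps
      rw [if_neg hr0]
    rw [hop'] at h2 h4
    rw [h1, h2, hzr, heps]
    by_cases h6 : Lg G (G.r (G.r w))
    · rw [st_lg h6, if_pos h6]
      by_cases h7 : w ∈ O
      · by_cases h8 : h.N⁻¹ w ∈ O
        · rw [if_pos (h3.2 h7), if_pos (h4.2 h8), if_pos ⟨fun _ => h8, fun _ => h7⟩, if_pos h7]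
          decide
        · rw [if_pos (h3.2 h7), if_neg (fun h9 => h8 (h4.1 h9)), if_neg (fun h9 => h8 (h9.1 h7))]
          decide
      · by_cases h8 : h.N⁻¹ w ∈ O
        · rw [if_neg (fun h9 => h7 (h3.1 h9)), if_pos (h4.2 h8),
            if_neg (fun h9 => h7 (h9.2 h8))]
          decide
        · rw [if_neg (fun h9 => h7 (h3.1 h9)), if_neg (fun h9 => h8 (h4.1 h9)),
            if_pos ⟨fun h9 => absurd h9 h7, fun h9 => absurd h9 h8⟩, if_neg h7]
          decide
    · rw [st_0 h6 h5.2, if_neg h6]
      by_cases h7 : w ∈ O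
      · by_cases h8 : h.N⁻¹ w ∈ O
        · rw [if_pos (h3.2 h7), if_pos (h4.2 h8), if_pos ⟨fun _ => h8, fun _ => h7⟩, if_pos h7]
          decide
        · rw [if_pos (h3.2 h7), if_neg (fun h9 => h8 (h4.1 h9)), if_neg (fun h9 => h8 (h9.1 h7))]
          decide
      · by_cases h8 : h.N⁻¹ w ∈ O
        · rw [if_neg (fun h9 => h7 (h3.1 h9)), if_pos (h4.2 h8),
            if_neg (fun h9 => h7 (h9.2 h8))]
          decide
        · rw [if_neg (fun h9 => h7 (h3.1 h9)), if_neg (fun h9 => h8 (h4.1 h9)),
            if_pos ⟨fun h9 => absurd h9 h7, fun h9 => absurd h9 h8⟩, if_neg h7]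
          decide

/-- The representatives of the vertices. -/
theorem rep [Fintype V] {Q : Finset V} (hQ : IsRep G.r Q) :
    IsRep G.r ((Finset.univ : Finset V).filter (fun v => φ v = 1) ∪
      Q.filter fun v => Lg G v ∧ Lg G (G.r v) ∧ Lg G (G.r (G.r v))) where
  nf v hv := by
    rcases Finset.mem_union.1 hv with h1 | h1
    · exact h.r_ne (Finset.mem_filter.1 h1).2
    · exact hQ.nf v (Finset.mem_filter.1 h1).1
  ex v hv := by
    by_cases h3 : Lg G v ∧ Lg G (G.r v) ∧ Lg G (G.r (G.r v))
    · rcases hQ.ex v hv with h1 | h1 | h1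
      · exact Or.inl (Finset.mem_union_right _ (Finset.mem_filter.2 ⟨h1, h3⟩))
      · refine Or.inr (Or.inl (Finset.mem_union_right _ (Finset.mem_filter.2 ⟨h1, ?_⟩)))
        rw [G.r3]
        exact ⟨h3.2.1, h3.2.2, h3.1⟩
      · refine Or.inr (Or.inr (Finset.mem_union_right _ (Finset.mem_filter.2 ⟨h1, ?_⟩)))
        rw [G.r3]
        exact ⟨h3.2.2, h3.1, h3.2.1⟩
    · rcases h.some1 hv h3 with h1 | h1 | h1
      · exact Or.inl (Finset.mem_union_left _ (Finset.mem_filter.2 ⟨Finset.mem_univ _, h1⟩))
      · exact Or.inr (Or.inl (Finset.mem_union_left _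
          (Finset.mem_filter.2 ⟨Finset.mem_univ _, h1⟩)))
      · exact Or.inr (Or.inr (Finset.mem_union_left _
          (Finset.mem_filter.2 ⟨Finset.mem_univ _, h1⟩)))
  un v hv := by
    rcases Finset.mem_union.1 hv with h1 | h1
    · have h2 := (Finset.mem_filter.1 h1).2
      have h3 : φ (G.r v) ≠ 1 ∧ φ (G.r (G.r v)) ≠ 1 := by
        rcases h.tri1 h2 with h3 | h3
        · rw [h3.1, h3.2]
          decide
        · rw [h3.1, h3.2]
          decide
      refine ⟨fun h4 => ?_, fun h4 => ?_⟩
      · rcases Finset.mem_union.1 h4 with h5 | h5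
        · exact h3.1 (Finset.mem_filter.1 h5).2
        · have h6 := (Finset.mem_filter.1 h5).2.2.2
          rw [G.r3] at h6
          exact h.not_lg1 h2 h6
      · rcases Finset.mem_union.1 h4 with h5 | h5
        · exact h3.2 (Finset.mem_filter.1 h5).2
        · have h6 := (Finset.mem_filter.1 h5).2.2.1
          rw [G.r3] at h6
          exact h.not_lg1 h2 h6
    · have h2 := (Finset.mem_filter.1 h1).2
      have h3 := hQ.un v (Finset.mem_filter.1 h1).1
      refine ⟨fun h4 => ?_, fun h4 => ?_⟩
      · rcases Finset.mem_union.1 h4 with h5 | h5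
        · exact h.not_lg1 (Finset.mem_filter.1 h5).2 h2.2.1
        · exact h3.1 (Finset.mem_filter.1 h5).1
      · rcases Finset.mem_union.1 h4 with h5 | h5
        · exact h.not_lg1 (Finset.mem_filter.1 h5).2 h2.2.2
        · exact h3.2 (Finset.mem_filter.1 h5).1

/-- The product over the vertices. -/
theorem vp_prod [Fintype V] (hrep : S_rep) (hvp : S_vp) {f : V → ℤ}
    (hf : ∀ v, f (G.r v) = f v)
    (h3 : ∀ v, Lg G v ∧ Lg G (G.r v) ∧ Lg G (G.r (G.r v)) → f v = 1) :
    vp G.r f = ∏ w : {v : V // φ v = 1}, f w := by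
  obtain ⟨Q, hQ⟩ := hrep V G.r G.r3
  rw [hvp V G.r _ f G.r3 (h.rep hQ) hf, Finset.prod_union]
  · have h1 : ∏ x ∈ Q.filter (fun v => Lg G v ∧ Lg G (G.r v) ∧ Lg G (G.r (G.r v))), f x = 1 :=
      Finset.prod_eq_one fun x hx => h3 x (Finset.mem_filter.1 hx).2
    rw [h1, mul_one]
    exact (Finset.prod_subtype ((Finset.univ : Finset V).filter fun v => φ v = 1)
      (fun x => by simp) f)
  · rw [Finset.disjoint_left]
    intro x hx hx'
    exact h.not_lg1 (Finset.mem_filter.1 hx).2 (Finset.mem_filter.1 hx').2.1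

omit h in
/-- Swapping the two half-edges of the circuits at the vertices of a set of half-edges. -/
theorem exists_swaps [Fintype V] (h : Reg G φ) (T : Finset {v : V // φ v = 1}) :
    ∃ σ : Perm V, (∀ w ∈ T, σ w = op G φ w ∧ σ (op G φ w) = w) ∧
      (∀ x : V, (∀ w ∈ T, x ≠ w ∧ x ≠ op G φ w) → σ x = x) ∧
      ((Perm.sign σ : ℤˣ) : ℤ) = (-1) ^ T.card := by
  have hne : ∀ u w : {v : V // φ v = 1}, (u : V) ≠ op G φ w := by
    intro u w h1
    have h2 := h.op2 w.2
    rw [← h1, u.2] at h2
    revert h2
    decide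
  have hinj : ∀ u w : {v : V // φ v = 1}, op G φ u = op G φ w → u = w := by
    intro u w h1
    apply Subtype.ext
    rw [← h.nx_op u.2, ← h.nx_op w.2, h1]
  induction T using Finset.induction_on with
  | empty => exact ⟨1, by simp, by simp, by simp⟩
  | insert a T ha ih =>
    obtain ⟨σ, h1, h2, h3⟩ := ih
    refine ⟨σ * swap (a : V) (op G φ a), ?_, ?_, ?_⟩
    · intro w hw
      rw [Perm.mul_apply, Perm.mul_apply]
      rcases Finset.mem_insert.1 hw with rfl | hw
      · rw [swap_apply_left, swap_apply_right]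
        constructor
        · refine h2 _ fun u hu => ⟨(hne u w).symm, fun h4 => ha ?_⟩
          rw [hinj _ _ h4]
          exact hu
        · exact h2 _ fun u hu => ⟨fun h4 => ha (by rw [Subtype.ext h4]; exact hu), hne _ _⟩
      · have hwa : w ≠ a := fun h4 => ha (h4 ▸ hw)
        rw [swap_apply_of_ne_of_ne (fun h4 => hwa (Subtype.ext h4)) (hne _ _),
          swap_apply_of_ne_of_ne (hne a w).symm (fun h4 => hwa (hinj _ _ h4))]
        exact h1 w hw
    · intro x hx
      have h4 := hx a (Finset.mem_insert_self _ _)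
      rw [Perm.mul_apply, swap_apply_of_ne_of_ne h4.1 h4.2]
      exact h2 x fun w hw => hx w (Finset.mem_insert_of_mem hw)
    · rw [Perm.sign_mul, Perm.sign_swap (hne a a), Finset.card_insert_of_notMem ha, pow_succ,
        ← h3]
      push_cast
      ring

theorem sg_eq [Fintype V] (hsg : S_sg) {O : Finset {v : V // φ v = 1}} (hO : Inv h.N O)
    (ho3 : ∀ v, (osp.odd (st G O v) ^^ (osp.odd (st G O (G.r v)) ^^
      osp.odd (st G O (G.r (G.r v))))) = false) :
    sg G.e G.r (fun v => osp.odd (st G O v)) (fun v => osp.pos (st G O v)) =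
      ((Perm.sign (rs h.N O) : ℤˣ) : ℤ) * ∏ w ∈ O, eps G φ w := by
  obtain ⟨σ, hs1, hs2, hs3⟩ := exists_swaps h (O.filter fun w : {v : V // φ v = 1} => eps G φ w = -1)
  have hst := h.st_isSt O
  have hpar : Par2 G.e G.r (fun v => osp.odd (st G O v)) (fun v => osp.pos (st G O v)) := by
    refine ⟨fun v => ?_, fun v hv => ?_, fun v hv => ?_, ho3⟩
    · show osp.odd (st G O (G.e v)) = osp.odd (st G O v)
      rw [hst.2 v]
      exact osp_ok.odd_du _
    · show osp.pos (st G O (G.e v)) = !(osp.pos (st G O v))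
      rw [hst.2 v]
      exact osp_ok.pos_du _ hv
    · show osp.odd (st G O v) = false
      rw [st_lg (Or.inl hv)]
      rfl
  -- the odd half-edges
  have hne : ∀ u w : {v : V // φ v = 1}, (u : V) ≠ op G φ w := by
    intro u w h1
    have h2 := h.op2 w.2
    rw [← h1, u.2] at h2
    revert h2
    decide
  have hinj : ∀ u w : {v : V // φ v = 1}, op G φ u = op G φ w → u = w := by
    intro u w h1
    apply Subtype.ext
    rw [← h.nx_op u.2, ← h.nx_op w.2, h1]
  have hodd1 : ∀ w : {v : V // φ v = 1}, w ∈ O → osp.odd (st G O w) = true := by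
    intro w hw
    rw [st_1 (h.not_lg1 w.2) w.2, if_pos ((inO_iff w).2 hw)]
    rfl
  have hodd2 : ∀ w : {v : V // φ v = 1}, w ∈ O → osp.odd (st G O (op G φ w)) = true := by
    intro w hw
    have h1 := h.op2 w.2
    have h2 : h.N⁻¹ w ∈ O := by
      rw [← hO, self_inv']
      exact hw
    have h3 : inO O (G.e (op G φ w)) := (inO_iff (h.N⁻¹ w)).2 h2
    rw [st_2 (h.not_lg2 h1) h1, if_pos h3]
    rfl
  have hκ : IsK G.e G.r (fun v => osp.odd (st G O v)) (fun v => osp.pos (st G O v))
      (σ * Perm.ofSubtype (rs h.N O)) := by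
    constructor
    · intro v hv
      have hv' : osp.odd (st G O v) = false := hv
      rw [Perm.mul_apply]
      have h1 : Perm.ofSubtype (rs h.N O) v = v := by
        by_cases h2 : φ v = 1
        · rw [Perm.ofSubtype_apply_of_mem (p := fun v => φ v = 1) (rs h.N O) h2]
          have h3 : (⟨v, h2⟩ : {v : V // φ v = 1}) ∉ O := by
            intro h3
            rw [hodd1 _ h3] at hv'
            exact absurd hv' (by decide)
          rw [rs_not hO h3]
        · exact Perm.ofSubtype_apply_of_not_mem _ h2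
      rw [h1]
      refine hs2 v fun w hw => ⟨fun h2 => ?_, fun h2 => ?_⟩
      · rw [h2, hodd1 w (Finset.mem_filter.1 hw).1] at hv'
        exact absurd hv' (by decide)
      · rw [h2, hodd2 w (Finset.mem_filter.1 hw).1] at hv'
        exact absurd hv' (by decide)
    · intro v hv hp
      have hp' : osp.pos (st G O v) = true := hp
      -- v is in O
      have hvO : inO O v := by
        by_contra h1
        have h2 : st G O v = some 1 := by
          revert hp'
          generalize st G O v = l
          revert l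
          decide
        by_cases hl : Lg G v
        · rw [st_lg hl] at h2
          exact absurd h2 (by decide)
        · rcases z3c (φ v) with h3 | h3 | h3
          · rw [st_0 hl h3] at h2
            exact absurd h2 (by decide)
          · rw [st_1 hl h3, if_neg h1] at h2
            exact absurd h2 (by decide)
          · rw [st_2 hl h3] at h2
            split at h2
            · exact absurd h2 (by decide)
            · exact absurd h2 (by decide)
      obtain ⟨hv1, hvm⟩ := hvO
      have huO : h.N ⟨v, hv1⟩ ∈ O := (hO _).2 hvm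
      have h1 : Perm.ofSubtype (rs h.N O) v = nx G φ v := by
        rw [Perm.ofSubtype_apply_of_mem (p := fun v => φ v = 1) (rs h.N O) hv1, rs_mem hO hvm]
        rfl
      have h2 : Perm.ofSubtype (rs h.N O) (G.e v) = G.e v := by
        refine Perm.ofSubtype_apply_of_not_mem _ ?_
        rw [h.e1 hv1]
        decide
      have h3 := h.op_nx hv1
      have h4 := h.nx1 hv1
      have hu : ((h.N ⟨v, hv1⟩ : {v : V // φ v = 1}) : V) = nx G φ v := rfl
      show osp.odd (st G O ((σ * Perm.ofSubtype (rs h.N O)) v)) = true ∧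
        osp.odd (st G O (G.r ((σ * Perm.ofSubtype (rs h.N O)) v))) = true ∧
        (σ * Perm.ofSubtype (rs h.N O)) (G.e v) = G.r ((σ * Perm.ofSubtype (rs h.N O)) v)
      rw [Perm.mul_apply, Perm.mul_apply, h1, h2]
      rcases h.tri1 h4 with h5 | h5
      · have heps : eps G φ (nx G φ v) = -1 := by
          unfold eps
          rw [if_pos h5.1]
        have hT : h.N ⟨v, hv1⟩ ∈ O.filter fun w : {v : V // φ v = 1} => eps G φ w = -1 :=
          Finset.mem_filter.2 ⟨huO, heps⟩
        have h6 := hs1 _ hT
        rw [hu, h3] at h6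
        have h7 : G.r (G.e v) = nx G φ v := by
          have h8 : op G φ (nx G φ v) = G.r (G.r (nx G φ v)) := by
            unfold op
            rw [if_pos h5.1]
          rw [← h3, h8, G.r3]
        rw [h6.1, h6.2, h7]
        refine ⟨?_, ?_, rfl⟩
        · have h8 := hodd2 _ huO
          rw [hu, h3] at h8
          exact h8
        · have h8 := hodd1 _ huO
          rw [hu] at h8
          exact h8
      · have hr0 : ¬ φ (G.r (nx G φ v)) = 0 := by
          rw [h5.1]
          decide
        have heps : eps G φ (nx G φ v) = 1 := by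
          unfold eps
          rw [if_neg hr0]
        have hop : op G φ (nx G φ v) = G.r (nx G φ v) := by
          unfold op
          rw [if_neg hr0]
        have h6 : σ (nx G φ v) = nx G φ v := by
          refine hs2 _ fun w hw => ⟨fun h7 => ?_, ?_⟩
          · have h8 := (Finset.mem_filter.1 hw).2
            rw [← h7, heps] at h8
            revert h8
            decide
          · rw [← hu]
            exact hne _ _
        have h7 : σ (G.e v) = G.e v := by
          refine hs2 _ fun w hw => ⟨fun h7 => ?_, fun h7 => ?_⟩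
          · have h8 := h.e1 hv1
            rw [h7, w.2] at h8
            revert h8
            decide
          · rw [← h3, ← hu] at h7
            have h8 := hinj _ _ h7
            have h9 := (Finset.mem_filter.1 hw).2
            rw [← h8, hu, heps] at h9
            revert h9
            decide
        rw [h6, h7]
        refine ⟨?_, ?_, ?_⟩
        · have h8 := hodd1 _ huO
          rw [hu] at h8
          exact h8
        · rw [← hop]
          have h8 := hodd2 _ huO
          rw [hu] at h8
          exact h8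
        · rw [← hop, h3]
  rw [hsg V G.e G.r _ _ _ G.e2 G.r3 hpar hκ, map_mul, Perm.sign_ofSubtype]
  push_cast
  rw [hs3, mul_comm]
  congr 1
  rw [← Finset.prod_filter_mul_prod_filter_not O (fun w => eps G φ w = -1)]
  have h1 : ∏ x ∈ O.filter (fun w : {v : V // φ v = 1} => eps G φ (w : V) = -1), eps G φ (x : V) =
      (-1) ^ (O.filter fun w : {v : V // φ v = 1} => eps G φ (w : V) = -1).card :=
    Finset.prod_eq_pow_card fun x hx => (Finset.mem_filter.1 hx).2
  have h2 : ∏ x ∈ O.filter (fun w : {v : V // φ v = 1} => ¬ eps G φ (w : V) = -1), eps G φ (x : V) = 1 := by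
    refine Finset.prod_eq_one fun x hx => ?_
    have h3 := (Finset.mem_filter.1 hx).2
    unfold eps at h3 ⊢
    split_ifs at h3 ⊢ with h4
    · exact absurd rfl h3
    · rfl
  rw [h1, h2, mul_one]

/-- The weight of the state `st G O`. -/
theorem wt_eq [Fintype V] (hsg : S_sg) (hrep : S_rep) (hvp : S_vp)
    (O : Finset {v : V // φ v = 1}) :
    wt osp G (st G O) = (∏ w : {v : V // φ v = 1}, eps G φ w) * (wO h.N O *
      ∏ w ∈ Finset.univ \ O, (if Lg G (zr G φ (w : V)) then (1 : ℤ) else -2)) := by
  have hf3 : ∀ v, Lg G v ∧ Lg G (G.r v) ∧ Lg G (G.r (G.r v)) →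
      osp.T (st G O v) (st G O (G.r v)) (st G O (G.r (G.r v))) = 1 := by
    intro v hv
    rw [st_lg hv.1, st_lg hv.2.1, st_lg hv.2.2]
    rfl
  have hfr : ∀ v, osp.T (st G O (G.r v)) (st G O (G.r (G.r v))) (st G O (G.r (G.r (G.r v)))) =
      osp.T (st G O v) (st G O (G.r v)) (st G O (G.r (G.r v))) := by
    intro v
    rw [G.r3]
    exact (osp_ok.cyc _ _ _).symm
  have hvpe : vp G.r (fun v => osp.T (st G O v) (st G O (G.r v)) (st G O (G.r (G.r v)))) =
      ∏ w : {v : V // φ v = 1}, (if (w ∈ O ↔ h.N⁻¹ w ∈ O) then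
        (if w ∈ O then -1 else eps G φ w * (if Lg G (zr G φ w) then 1 else -2)) else 0) := by
    rw [h.vp_prod hrep hvp (f := fun v => osp.T (st G O v) (st G O (G.r v))
      (st G O (G.r (G.r v)))) hfr hf3]
    exact Finset.prod_congr rfl fun w _ => h.fval O w
  unfold wt
  rw [hvpe]
  by_cases hO : Inv h.N O
  · have hiff : ∀ w : {v : V // φ v = 1}, (w ∈ O ↔ h.N⁻¹ w ∈ O) := by
      intro w
      have h1 := hO (h.N⁻¹ w)
      rw [self_inv'] at h1
      exact h1
    have hnz : ∀ v, G.r v ≠ v →
        osp.T (st G O v) (st G O (G.r v)) (st G O (G.r (G.r v))) ≠ 0 := by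
      have h1 : ∀ w : {v : V // φ v = 1},
          osp.T (st G O w) (st G O (G.r w)) (st G O (G.r (G.r w))) ≠ 0 := by
        intro w
        rw [h.fval O w, if_pos (hiff w)]
        unfold eps
        split_ifs <;> decide
      intro v hv
      by_cases h3 : Lg G v ∧ Lg G (G.r v) ∧ Lg G (G.r (G.r v))
      · rw [hf3 v h3]
        decide
      · rcases h.some1 hv h3 with h2 | h2 | h2
        · exact h1 ⟨v, h2⟩
        · rw [← hfr v]
          exact h1 ⟨_, h2⟩
        · rw [← hfr v, ← hfr (G.r v)]
          exact h1 ⟨_, h2⟩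
    have ho3 : ∀ v, (osp.odd (st G O v) ^^ (osp.odd (st G O (G.r v)) ^^
        osp.odd (st G O (G.r (G.r v))))) = false := by
      intro v
      by_cases hv : G.r v = v
      · rw [hv, hv, st_lg (Or.inl hv)]
        decide
      · exact osp_ok.par _ _ _ (hnz v hv)
    rw [h.sg_eq hsg hO ho3]
    have h1 : ∏ w : {v : V // φ v = 1}, (if (w ∈ O ↔ h.N⁻¹ w ∈ O) then
        (if w ∈ O then -1 else eps G φ w * (if Lg G (zr G φ w) then 1 else -2)) else 0) =
        (∏ w ∈ O, (-1 : ℤ)) * ∏ w ∈ Finset.univ \ O,
          (eps G φ w * (if Lg G (zr G φ (w : V)) then (1 : ℤ) else -2)) := by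
      rw [← Finset.prod_sdiff (Finset.subset_univ O), mul_comm]
      congr 1
      · refine Finset.prod_congr rfl fun w hw => ?_
        rw [if_pos (hiff w), if_pos hw]
      · refine Finset.prod_congr rfl fun w hw => ?_
        rw [if_pos (hiff w), if_neg (Finset.mem_sdiff.1 hw).2]
    rw [h1, Finset.prod_const, Finset.prod_mul_distrib]
    unfold wO
    have h2 : ∏ w : {v : V // φ v = 1}, eps G φ (w : V) =
        (∏ w ∈ Finset.univ \ O, eps G φ (w : V)) * ∏ w ∈ O, eps G φ (w : V) :=
      (Finset.prod_sdiff (Finset.subset_univ O)).symm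
    rw [if_pos hO, h2]
    ring
  · have h1 : ∏ w : {v : V // φ v = 1}, (if (w ∈ O ↔ h.N⁻¹ w ∈ O) then
        (if w ∈ O then -1 else eps G φ w * (if Lg G (zr G φ w) then 1 else -2)) else 0) =
        (0 : ℤ) := by
      have h2 : ∃ w : {v : V // φ v = 1}, ¬ (w ∈ O ↔ h.N⁻¹ w ∈ O) := by
        by_contra h3
        push Not at h3
        apply hO
        intro x
        have h4 := h3 (h.N x)
        have h5 : h.N⁻¹ (h.N x) = x := h.N.symm_apply_apply x
        rw [h5] at h4
        exact h4
      obtain ⟨w, hw⟩ := h2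
      exact Finset.prod_eq_zero (Finset.mem_univ w) (by rw [if_neg hw])
    rw [h1, mul_zero]
    unfold wO
    rw [if_neg hO]
    ring

theorem ep_eq [Fintype V] : ep G φ = ∏ w : {v : V // φ v = 1}, eps G φ w := by
  unfold ep
  exact Finset.prod_subtype ((Finset.univ : Finset V).filter fun v => φ v = 1)
      (fun x => by simp) _

/-- The exact value. -/
theorem cosp_eq [Fintype V] (hsg : S_sg) (hrep : S_rep) (hvp : S_vp) :
    cosp G φ = ep G φ * DS h.N
      (fun w => if Lg G (zr G φ (w : V)) then (1 : ℤ) else -2) Finset.univ := by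
  rw [h.cosp_sum, h.ep_eq]
  unfold DS
  rw [Finset.mul_sum]
  refine Finset.sum_bij' (fun O _ => O) (fun O _ => O) ?_ ?_ ?_ ?_ ?_
  · intro O _
    exact Finset.mem_powerset.2 (Finset.subset_univ _)
  · intro O _
    exact Finset.mem_univ _
  · intro O _
    rfl
  · intro O _
    rfl
  · intro O _
    exact h.wt_eq hsg hrep hvp O

/-- The congruence for `osp(1|2)`. -/
theorem cosp_base [Fintype V] (hsg : S_sg) (hrep : S_rep) (hvp : S_vp)
    (h24 : ((Finset.univ : Finset V).filter fun v => Real G v).card = 24) :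
    (h.One → (9 : ℤ) ∣ cosp G φ - 3 * ep G φ) ∧ (¬ h.One → (9 : ℤ) ∣ cosp G φ) := by
  have h8 : ((Finset.univ : Finset V).filter fun v => Real G v ∧ φ v = 1).card = 8 := by
    have h1 := h.card_real
    omega
  have hprod : ∏ w : {v : V // φ v = 1}, (if Lg G (zr G φ (w : V)) then (1 : ℤ) else -2) =
      (-2) ^ 8 := by
    rw [← h8]
    have h1 : ∏ w : {v : V // φ v = 1}, (if Lg G (zr G φ (w : V)) then (1 : ℤ) else -2) =
        ∏ w ∈ (Finset.univ : Finset V).filter (fun v => φ v = 1),
          (if Lg G (zr G φ w) then (1 : ℤ) else -2) :=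
      (Finset.prod_subtype ((Finset.univ : Finset V).filter fun v => φ v = 1)
        (fun x => by simp) (fun w => if Lg G (zr G φ w) then (1 : ℤ) else -2)).symm
    rw [h1, ← Finset.prod_filter_mul_prod_filter_not _ (fun w => Lg G (zr G φ w))]
    have h2 : ∏ x ∈ ((Finset.univ : Finset V).filter (fun v => φ v = 1)).filter
        (fun w => Lg G (zr G φ w)), (if Lg G (zr G φ x) then (1 : ℤ) else -2) = 1 :=
      Finset.prod_eq_one fun x hx => if_pos (Finset.mem_filter.1 hx).2
    have h3 : ∏ x ∈ ((Finset.univ : Finset V).filter (fun v => φ v = 1)).filter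
        (fun w => ¬ Lg G (zr G φ w)), (if Lg G (zr G φ x) then (1 : ℤ) else -2) =
        (-2) ^ (((Finset.univ : Finset V).filter (fun v => φ v = 1)).filter
          fun w => ¬ Lg G (zr G φ w)).card :=
      Finset.prod_eq_pow_card fun x hx => if_neg (Finset.mem_filter.1 hx).2
    rw [h2, h3, one_mul]
    congr 2
    ext v
    rw [Finset.mem_filter, Finset.mem_filter, Finset.mem_filter]
    constructor
    · rintro ⟨⟨h4, h5⟩, h6⟩
      exact ⟨h4, (h.real_iff h5).2 h6, h5⟩
    · rintro ⟨h4, h5, h6⟩
      exact ⟨⟨h4, h6⟩, (h.real_iff h6).1 h5⟩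
  rw [h.cosp_eq hsg hrep hvp]
  constructor
  · intro h1
    have hne : Nonempty {v : V // φ v = 1} := by
      have h2 : ((Finset.univ : Finset V).filter fun v => Real G v ∧ φ v = 1).Nonempty := by
        rw [← Finset.card_pos, h8]
        decide
      obtain ⟨v, hv⟩ := h2
      exact ⟨⟨v, (Finset.mem_filter.1 hv).2.2⟩⟩
    rw [DS_one _ h1, hprod]
    exact ⟨28 * ep G φ, by ring⟩
  · intro h1
    have h2 : ∃ u v : {v : V // φ v = 1}, ¬ h.N.SameCycle u v := by
      by_contra h3
      push Not at h3
      exact h1 h3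
    obtain ⟨u, v, huv⟩ := h2
    refine Dvd.dvd.mul_left (DS_nine (fun a => ?_) huv) _
    by_cases h3 : Lg G (zr G φ (a : V))
    · rw [if_pos h3]
      decide
    · rw [if_neg h3]
      decide

end Reg

end Pool.Agent.SWT46
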